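import Pool.Agent.H53.NvG

/-! The Shea-Sons deficiency inequality in the unit disc holds with the factor 2 deleted. -/

namespace Pool.Agent.Results.MP_99dc29_an.Full

open Metric Filter Pool.Agent.H53.Nv

theorem result (f : ℂ → ℂ) (hf : MeromorphicOn f (ball 0 1))
    (hnc : ∀ c : ℂ, ¬ ∀ᶠ z in codiscreteWithin (ball (0 : ℂ) 1), f z = c) (hρ : ord f ≠ ⊤) :
    ∑' a : ℂ, defi a f ≤ (1 + kk f) * defi 0 (deriv f) + (ord f + 1) / lam f :=
  main hf hnc hρ

end Pool.Agent.Results.MP_99dc29_an.Full
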